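import Pool.Agent.Q248.PI.El

/-!
# Every set of positive integers containing `1` is a product intersection set
-/

namespace Pool.Agent.Results.MP_078e15_co.AllSets

open Pool.Agent.Q248.PI

universe u

/-- There is one countable commutative semigroup `S` such that the sets `H(A_q)` of the
asymptotically strictly decreasing sequences `(A_q)` of subsets of `S` are exactly the sets of
positive integers that contain `1`. -/
theorem result : ∃ (S : Type u) (_ : CommSemigroup S), Countable S ∧
    HStar S = {X : Set ℕ | 1 ∈ X ∧ ∀ h ∈ X, 1 ≤ h} := by
  refine ⟨El.{u}, inferInstance, inferInstance, ?_⟩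
  ext X
  rw [Set.mem_ofPred_eq]
  constructor
  · rintro ⟨A, _, rfl⟩
    exact ⟨one_mem_interSet A, fun h hh => pos_of_mem_interSet hh⟩
  · rintro ⟨h1, hX⟩
    exact El.hStar_El h1 hX

end Pool.Agent.Results.MP_078e15_co.AllSets
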